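import Pool.Agent.Zk56.LS.Deg

/-! # A space `L_{15,2}` in characteristic 3

Over every algebraically closed field `k` of characteristic `3` there is an `F_3`-vector space of
dimension `2` of logarithmic differentials on the projective line, all of whose nonzero elements
have their only zero at infinity, of order `13`; they have `15` poles. So a space `L_{m+1,n}` with
`p = 3`, `n = 2`, `m + 1 = 15` exists. All spaces with `n = 2` of the starting file
`AllDimensions` have `m + 1` divisible by `p ^ 2` (here by `9`).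

A meromorphic differential on the projective line is `f dz` with `f` in `k(z)`; we describe it by
the rational function `f`. -/

namespace Pool.Agent.Results.MP_f76cdc_ag.CharacteristicThree

open Polynomial

variable {k : Type} [Field k]

/-- The derivative `dg/dz` of a rational function `g`, by the quotient rule applied to its reduced
numerator and denominator. -/
noncomputable def ddz (g : RatFunc k) : RatFunc k :=
  algebraMap k[X] (RatFunc k) (derivative g.num * g.denom - g.num * derivative g.denom) /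
    algebraMap k[X] (RatFunc k) (g.denom ^ 2)

/-- The differential `f dz` is logarithmic: it is `dg/g` for some nonzero rational function `g`. -/
def IsLogarithmic (f : RatFunc k) : Prop := ∃ g : RatFunc k, g ≠ 0 ∧ f = ddz g / g

/-- The differential `f dz` has no zero in the affine line: the reduced numerator of `f` has no
zero. -/
def NoFiniteZero (f : RatFunc k) : Prop := ∀ a : k, f.num.eval a ≠ 0

/-- The order of vanishing of `f dz` at infinity: `f` vanishes there to order
`deg(denominator) - deg(numerator)`, and `dz` has a pole of order `2`. -/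
noncomputable def ordInfty (f : RatFunc k) : ℤ := -f.intDegree - 2

/-- `V` (a set of differentials `f dz`, given by the functions `f`) is a space `L_{m+1,n}`: it is an
additive subgroup (which is the same as an `F_p`-linear subspace if `k` has characteristic `p`)
with `p ^ n` elements (i.e. of dimension `n`), and its nonzero elements are logarithmic, have no
zero in the affine line and vanish at infinity to order exactly `m - 1`. -/
def IsSpaceL (p m n : ℕ) (V : AddSubgroup (RatFunc k)) : Prop :=
  Nat.card V = p ^ n ∧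
    ∀ f ∈ V, f ≠ 0 → IsLogarithmic f ∧ NoFiniteZero f ∧ ordInfty f = (m : ℤ) - 1

/-! ### Proof -/

/-- what is required of the nonzero elements -/
def Good (f : RatFunc k) : Prop := f ≠ 0 ∧ IsLogarithmic f ∧ NoFiniteZero f ∧ ordInfty f = 13

theorem am_ne {P : k[X]} (h : P ≠ 0) : algebraMap k[X] (RatFunc k) P ≠ 0 :=
  RatFunc.algebraMap_ne_zero h

theorem ddz_div {N D : k[X]} (hN : N ≠ 0) (hD : D ≠ 0) :
    ddz (algebraMap k[X] (RatFunc k) N / algebraMap k[X] (RatFunc k) D) /
        (algebraMap k[X] (RatFunc k) N / algebraMap k[X] (RatFunc k) D) =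
      algebraMap k[X] (RatFunc k) (derivative N * D - N * derivative D) /
        algebraMap k[X] (RatFunc k) (N * D) := by
  set g := algebraMap k[X] (RatFunc k) N / algebraMap k[X] (RatFunc k) D with hg
  have h1 : g.num * D = N * g.denom := (RatFunc.num_mul_eq_mul_denom_iff hD).mpr hg
  have h2 : derivative g.num * D + g.num * derivative D =
      derivative N * g.denom + N * derivative g.denom := by
    have := congrArg derivative h1
    simpa [derivative_mul] using this
  have hd : g.denom ≠ 0 := RatFunc.denom_ne_zero g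
  have key : (derivative g.num * g.denom - g.num * derivative g.denom) * D ^ 2 =
      (derivative N * D - N * derivative D) * g.denom ^ 2 := by
    linear_combination (g.denom * D) * h2 - (derivative D * g.denom + derivative g.denom * D) * h1
  have e1 : ddz g = algebraMap k[X] (RatFunc k) (derivative N * D - N * derivative D) /
      algebraMap k[X] (RatFunc k) (D ^ 2) := by
    unfold ddz
    rw [div_eq_div_iff (am_ne (pow_ne_zero 2 hd)) (am_ne (pow_ne_zero 2 hD)), ← map_mul, ← map_mul,
      key]
  rw [e1, hg, map_mul, map_pow]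
  have hN' := am_ne hN
  have hD' := am_ne hD
  field_simp

theorem good_of {P N D : k[X]} {κ w c : k} (hP : P = C κ * (N * D))
    (hW : derivative N * D - N * derivative D = C w) (hw : w * κ = c) (hc : c ≠ 0)
    (hN : N ≠ 0) (hD : D ≠ 0) (hdeg : P.natDegree = 15) :
    Good (algebraMap k[X] (RatFunc k) (C c) / algebraMap k[X] (RatFunc k) P) := by
  have hκ : κ ≠ 0 := by
    rintro rfl
    apply hc
    rw [← hw, mul_zero]
  have hCc : (C c : k[X]) ≠ 0 := by simpa using hc
  have hCκ : (C κ : k[X]) ≠ 0 := by simpa using hκ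
  have hP0 : P ≠ 0 := by
    rw [hP]
    exact mul_ne_zero hCκ (mul_ne_zero hN hD)
  refine ⟨div_ne_zero (am_ne hCc) (am_ne hP0), ?_, ?_, ?_⟩
  · refine ⟨algebraMap k[X] (RatFunc k) N / algebraMap k[X] (RatFunc k) D,
      div_ne_zero (am_ne hN) (am_ne hD), ?_⟩
    rw [ddz_div hN hD, hW, hP, ← hw, map_mul (C : k →+* k[X]), map_mul, map_mul, map_mul]
    have h1 := am_ne hN
    have h2 := am_ne hD
    have h3 := am_ne hCκ
    rw [div_eq_div_iff (mul_ne_zero h3 (mul_ne_zero h1 h2)) (mul_ne_zero h1 h2)]
    ring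
  · intro a ha
    obtain ⟨r, hr⟩ := RatFunc.num_div_dvd (C c) hP0
    have := congrArg (eval a) hr
    rw [eval_C, eval_mul, ha, zero_mul] at this
    exact hc this
  · unfold ordInfty
    rw [RatFunc.intDegree_div (am_ne hCc) (am_ne hP0), RatFunc.intDegree_polynomial,
      RatFunc.intDegree_polynomial, hdeg, natDegree_C]
    norm_num

theorem good_pm {P N D : k[X]} {κ w c : k} (hP : P = C κ * (N * D))
    (hW : derivative N * D - N * derivative D = C w) (hw : w * κ = c) (hc : c ≠ 0)
    (hN : N ≠ 0) (hD : D ≠ 0) (hdeg : P.natDegree = 15) :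
    Good (algebraMap k[X] (RatFunc k) (C c) / algebraMap k[X] (RatFunc k) P) ∧
    Good (-(algebraMap k[X] (RatFunc k) (C c) / algebraMap k[X] (RatFunc k) P)) := by
  refine ⟨good_of hP hW hw hc hN hD hdeg, ?_⟩
  have h := good_of (P := P) (N := D) (D := N) (κ := κ) (w := -w) (c := -c) (by rw [hP]; ring)
    (by rw [C_neg, ← hW]; ring) (by rw [← hw]; ring) (neg_ne_zero.mpr hc) hD hN hdeg
  rwa [C_neg, map_neg, neg_div] at h

theorem zmod3 : ∀ x : ZMod 3, x = 0 ∨ x = 1 ∨ x = 2 := by decide

open Pool.Agent.Zk56.LS in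
theorem exists_space (k : Type) [Field k] [IsAlgClosed k] [CharP k 3] :
    ∃ V : AddSubgroup (RatFunc k), IsSpaceL 3 14 2 V := by
  obtain ⟨i, hi⟩ := IsAlgClosed.exists_pow_nat_eq (-1 : k) (n := 2) (by norm_num)
  have h3k : (3 : k) = 0 := by
    have := CharP.cast_eq_zero k 3
    exact_mod_cast this
  have h3 : (3 : k[X]) = 0 := by
    have : (C (3 : k) : k[X]) = 3 := map_ofNat C 3
    rw [← this, h3k, C_0]
  have hC2 : (C (2 : k) : k[X]) = 2 := map_ofNat C 2
  set J : k[X] := C i with hJdef
  have hJ : J ^ 2 + 1 = 0 := by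
    rw [hJdef, ← C_pow, hi]
    simp
  have hdJ : derivative J = 0 := by rw [hJdef, derivative_C]
  have hi2 : i ^ 2 + 1 = 0 := by rw [hi]; ring
  -- the constant
  have hc : (1 + i : k) ≠ 0 := by
    intro h
    have : i = -1 := by linear_combination h
    rw [this] at hi2
    have h2 : (2 : k) = 0 := by linear_combination hi2
    have : (1 : k) = 0 := by linear_combination h3k - h2
    exact one_ne_zero this
  have ne_of_deg : ∀ (P : k[X]) (n : ℕ), 0 < n → P.natDegree = n → P ≠ 0 := by
    rintro P n hn h rfl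
    simp at h
    omega
  have hNa := ne_of_deg _ 9 (by norm_num) (deg_Na i)
  have hDa := ne_of_deg _ 6 (by norm_num) (deg_Da i)
  have hNb := ne_of_deg _ 12 (by norm_num) (deg_Nb i)
  have hDb := ne_of_deg _ 3 (by norm_num) (deg_Db i)
  have hNs := ne_of_deg _ 6 (by norm_num) (deg_Ns i)
  have hDs := ne_of_deg _ 9 (by norm_num) (deg_Ds i)
  have hNd := ne_of_deg _ 6 (by norm_num) (deg_Nd i)
  have hDd := ne_of_deg _ 9 (by norm_num) (deg_Dd i)
  have degP : ∀ (κ : k) (N D : k[X]), κ ≠ 0 → N ≠ 0 → D ≠ 0 → N.natDegree + D.natDegree = 15 →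
      (C κ * (N * D)).natDegree = 15 := by
    intro κ N D h1 h2 h3 h4
    rw [natDegree_C_mul h1, natDegree_mul h2 h3, h4]
  have i0 : i ≠ 0 := by
    rintro rfl
    have : (1 : k) = 0 := by linear_combination hi2
    exact one_ne_zero this
  have two0 : (2 : k) ≠ 0 := by
    intro h
    have : (1 : k) = 0 := by linear_combination h3k - h
    exact one_ne_zero this
  -- the four factorisations
  have Fa : pB J * (pA J ^ 2 - pB J ^ 2) = C (2 * i) * (Na J * Da J) := by
    rw [fac_a hJ h3]
    simp [hJdef, hC2]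
  have Fb : pA J * (pA J ^ 2 - pB J ^ 2) = C 2 * (Nb J * Db J) := by
    rw [fac_b hJ h3, hC2]
  have Fs : pA J * pB J * (pA J - pB J) = C (1 + i) * (Ns J * Ds J) := by
    rw [fac_s hJ h3]
    simp [hJdef, hC2]
  have Fd : pA J * pB J * (pA J + pB J) = C (2 + i) * (Nd J * Dd J) := by
    rw [fac_d hJ h3]
    simp [hJdef, hC2]
  have κd : (2 + i : k) ≠ 0 := by
    intro h
    have : i = 1 := by linear_combination h - h3k
    rw [this] at hi2
    exact two0 (by linear_combination hi2)
  have Ga := good_pm (c := 1 + i) Fa (w := 2 + i) (by rw [wr_a hJ h3 hdJ]; simp [hJdef, hC2])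
    (by linear_combination 2 * hi2 + (i - 1) * h3k) hc hNa hDa
    (by rw [Fa]; exact degP _ _ _ (mul_ne_zero two0 i0) hNa hDa (by rw [deg_Na, deg_Da]))
  have Gb := good_pm (c := 1 + i) Fb (w := 2 + 2 * i) (by rw [wr_b hJ h3 hdJ]; simp [hJdef, hC2])
    (by linear_combination (1 + i) * h3k) hc hNb hDb
    (by rw [Fb]; exact degP _ _ _ two0 hNb hDb (by rw [deg_Nb, deg_Db]))
  have Gs := good_pm (c := 1 + i) Fs (w := 1) (by rw [wr_s hJ h3 hdJ]; simp)
    (by ring) hc hNs hDs
    (by rw [Fs]; exact degP _ _ _ hc hNs hDs (by rw [deg_Ns, deg_Ds]))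
  have Gd := good_pm (c := 1 + i) Fd (w := 2 * i) (by rw [wr_d hJ h3 hdJ]; simp [hJdef, hC2])
    (by linear_combination 2 * hi2 + (i - 1) * h3k) hc hNd hDd
    (by rw [Fd]; exact degP _ _ _ κd hNd hDd (by rw [deg_Nd, deg_Dd]))
  -- nonvanishing
  have Pa0 : pB J * (pA J ^ 2 - pB J ^ 2) ≠ 0 := by
    rw [Fa]; exact mul_ne_zero (by simpa using mul_ne_zero two0 i0) (mul_ne_zero hNa hDa)
  have Pb0 : pA J * (pA J ^ 2 - pB J ^ 2) ≠ 0 := by
    rw [Fb]; exact mul_ne_zero (by simpa using two0) (mul_ne_zero hNb hDb)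
  have B0 : pB J ≠ 0 := left_ne_zero_of_mul Pa0
  have A0 : pA J ≠ 0 := left_ne_zero_of_mul Pb0
  have AB0 : pA J ^ 2 - pB J ^ 2 ≠ 0 := right_ne_zero_of_mul Pb0
  have AmB0 : pA J - pB J ≠ 0 := by
    intro h
    apply AB0
    linear_combination (pA J + pB J) * h
  have ApB0 : pA J + pB J ≠ 0 := by
    intro h
    apply AB0
    linear_combination (pA J - pB J) * h
  set fa := algebraMap k[X] (RatFunc k) (C (1 + i)) /
    algebraMap k[X] (RatFunc k) (pB J * (pA J ^ 2 - pB J ^ 2)) with hfa
  set fb := algebraMap k[X] (RatFunc k) (C (1 + i)) /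
    algebraMap k[X] (RatFunc k) (pA J * (pA J ^ 2 - pB J ^ 2)) with hfb
  set a := algebraMap k[X] (RatFunc k) (pA J) with ha
  set b := algebraMap k[X] (RatFunc k) (pB J) with hb
  set c := algebraMap k[X] (RatFunc k) (C (1 + i)) with hc'
  have a0 : a ≠ 0 := am_ne A0
  have b0 : b ≠ 0 := am_ne B0
  have amb0 : a - b ≠ 0 := by rw [ha, hb, ← map_sub]; exact am_ne AmB0
  have apb0 : a + b ≠ 0 := by rw [ha, hb, ← map_add]; exact am_ne ApB0
  have ab0 : a ^ 2 - b ^ 2 ≠ 0 := by
    have : a ^ 2 - b ^ 2 = (a - b) * (a + b) := by ring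
    rw [this]
    exact mul_ne_zero amb0 apb0
  have hs : fa + fb = c / algebraMap k[X] (RatFunc k) (pA J * pB J * (pA J - pB J)) := by
    rw [hfa, hfb, map_mul, map_mul, map_mul, map_mul, map_sub, map_sub, map_pow, map_pow, ← ha,
      ← hb]
    field_simp
    ring
  have hd : fa - fb = c / algebraMap k[X] (RatFunc k) (pA J * pB J * (pA J + pB J)) := by
    rw [hfa, hfb, map_mul, map_mul, map_mul, map_mul, map_sub, map_add, map_pow, map_pow, ← ha,
      ← hb]
    field_simp
    ring
  rw [← hs] at Gs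
  rw [← hd] at Gd
  have h3R : ∀ x : RatFunc k, (3 : ℤ) • x = 0 := by
    intro x
    have : ((3 : ℕ) : RatFunc k) = 0 := CharP.cast_eq_zero (RatFunc k) 3
    rw [zsmul_eq_mul]
    have h : ((3 : ℤ) : RatFunc k) = 0 := by exact_mod_cast this
    rw [h, zero_mul]
  let la : ZMod 3 →+ RatFunc k := ZMod.lift 3 ⟨zmultiplesHom (RatFunc k) fa, by
    simpa using h3R fa⟩
  let lb : ZMod 3 →+ RatFunc k := ZMod.lift 3 ⟨zmultiplesHom (RatFunc k) fb, by
    simpa using h3R fb⟩
  have la0 : la 0 = 0 := map_zero la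
  have lb0 : lb 0 = 0 := map_zero lb
  have la1 : la 1 = fa := by
    have := ZMod.lift_coe 3 ⟨zmultiplesHom (RatFunc k) fa, by simpa using h3R fa⟩ 1
    simpa using this
  have lb1 : lb 1 = fb := by
    have := ZMod.lift_coe 3 ⟨zmultiplesHom (RatFunc k) fb, by simpa using h3R fb⟩ 1
    simpa using this
  have la2 : la 2 = -fa := by
    have : (2 : ZMod 3) = -1 := by decide
    rw [this, map_neg, la1]
  have lb2 : lb 2 = -fb := by
    have : (2 : ZMod 3) = -1 := by decide
    rw [this, map_neg, lb1]
  let φ : ZMod 3 × ZMod 3 →+ RatFunc k := la.coprod lb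
  have key : ∀ x y : ZMod 3, (x, y) ≠ 0 → Good (φ (x, y)) := by
    intro x y hxy
    have e : φ (x, y) = la x + lb y := rfl
    have hx : x = 0 ∨ x = 1 ∨ x = 2 := zmod3 x
    have hy : y = 0 ∨ y = 1 ∨ y = 2 := zmod3 y
    rw [e]
    rcases hx with rfl | rfl | rfl <;> rcases hy with rfl | rfl | rfl
    · exact absurd rfl hxy
    · rw [la0, lb1, zero_add]; exact Gb.1
    · rw [la0, lb2, zero_add]; exact Gb.2
    · rw [la1, lb0, add_zero]; exact Ga.1
    · rw [la1, lb1]; exact Gs.1
    · rw [la1, lb2, ← sub_eq_add_neg]; exact Gd.1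
    · rw [la2, lb0, add_zero]; exact Ga.2
    · rw [la2, lb1, show -fa + fb = -(fa - fb) by ring]; exact Gd.2
    · rw [la2, lb2, show -fa + -fb = -(fa + fb) by ring]; exact Gs.2
  have hinj : Function.Injective φ := by
    rw [injective_iff_map_eq_zero]
    rintro ⟨x, y⟩ h
    by_contra hne
    exact (key x y hne).1 h
  refine ⟨φ.range, ?_, ?_⟩
  · rw [← Nat.card_congr (AddMonoidHom.ofInjective hinj).toEquiv]
    simp
  · rintro f ⟨⟨x, y⟩, rfl⟩ hf
    have hne : ((x, y) : ZMod 3 × ZMod 3) ≠ 0 := by
      rintro h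
      apply hf
      rw [h, map_zero]
    obtain ⟨-, h1, h2, h3⟩ := key x y hne
    refine ⟨h1, h2, ?_⟩
    rw [h3]
    norm_num

/-- Over every algebraically closed field of characteristic `3` a space `L_{15,2}` exists. -/
theorem result (k : Type) [Field k] [IsAlgClosed k] [CharP k 3] :
    ∃ V : AddSubgroup (RatFunc k), IsSpaceL 3 14 2 V := exists_space k

end Pool.Agent.Results.MP_f76cdc_ag.CharacteristicThree
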